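import Pool.Agent.H514.LR.Gen
import Pool.Agent.Y771.NF.FinD

set_option autoImplicit false

/-!
# Li coefficients on long runs: the Ramanujan L-function
-/

namespace Pool.Agent.H514.LR

open UpperHalfPlane hiding I
open MatrixGroups CongruenceSubgroup Filter Topology Complex
open Pool.Agent.Y771.NF (Lam Xf)
open scoped ComplexConjugate

theorem gen_one {a : ℝ} {G : ℂ → ℂ} (hG : Differentiable ℂ G)
    (hstrip : ∀ s, G s = 0 → |s.re - a| ≤ 1 / 2)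
    (hsym : ∀ s, G s = 0 → G (2 * a - conj s) = 0)
    (hconj : ∀ s, G (conj s) = conj (G s)) :
    List.TFAE [∀ s, G s = 0 → s.re = a,
      ∀ ε : ℝ, 0 < ε → ∀ᶠ n : ℕ in atTop, |(lic a G n).re| ≤ Real.exp (ε * n),
      ∀ ε : ℝ, 0 < ε → ∀ l : ℕ, ∃ᶠ N : ℕ in atTop, ∀ n : ℕ, N ≤ n → n < N + l →
        -Real.exp (ε * n) ≤ (lic a G n).re,
      ∀ ε : ℝ, 0 < ε → ∀ l : ℕ, ∃ᶠ N : ℕ in atTop, ∀ n : ℕ, N ≤ n → n < N + l →
        (lic a G n).re ≤ Real.exp (ε * n)] := by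
  have h := gen (ι := Unit) (fun _ => a) (fun _ => G) (fun _ => hG) (fun _ => hstrip) (fun _ => hsym)
    (fun _ => hconj) (fun _ => 1) (by
      rw [linearIndependent_unique_iff]
      norm_num)
  simpa only [Finset.univ_unique, Finset.sum_singleton, one_mul, forall_const] using h

variable {N : ℕ} [NeZero N] {k : ℕ} {f : CuspForm (Gamma0 N : Subgroup (GL (Fin 2) ℝ)) (k : ℤ)} {ε : ℝ}

theorem gen_nf (hk : 1 ≤ k) (hf : W388.IsNewf N k f ε) :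
    List.TFAE [∀ s, Lam f s = 0 → s.re = (k : ℝ) / 2,
      ∀ ε : ℝ, 0 < ε → ∀ᶠ n : ℕ in atTop, |(lic ((k : ℝ) / 2) (Lam f) n).re| ≤ Real.exp (ε * n),
      ∀ ε : ℝ, 0 < ε → ∀ l : ℕ, ∃ᶠ N : ℕ in atTop, ∀ n : ℕ, N ≤ n → n < N + l →
        -Real.exp (ε * n) ≤ (lic ((k : ℝ) / 2) (Lam f) n).re,
      ∀ ε : ℝ, 0 < ε → ∀ l : ℕ, ∃ᶠ N : ℕ in atTop, ∀ n : ℕ, N ≤ n → n < N + l →
        (lic ((k : ℝ) / 2) (Lam f) n).re ≤ Real.exp (ε * n)] ∧
    ∀ n, (lic ((k : ℝ) / 2) (Lam f) n).im = 0 := by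
  have hconj : ∀ s, Lam f (conj s) = conj (Lam f s) := Pool.Agent.Y771.NF.Lam_conj hf
  refine ⟨gen_one (Pool.Agent.Y771.NF.Lam_diff hk hf) ?_ ?_ hconj, fun n => lic_real hconj n⟩
  · intro s hs
    obtain ⟨u, H, Z, hu, -, hst, -⟩ := Pool.Agent.Y771.NF.all_of hk hf
    have h1 := hst (s - (k : ℂ) / 2) (by
      unfold Xf
      rw [add_sub_cancel, hs, mul_zero])
    have h2 : (s - (k : ℂ) / 2).re = s.re - (k : ℝ) / 2 := by
      have e : (k : ℂ) / 2 = (((k : ℝ) / 2 : ℝ) : ℂ) := by push_cast; rfl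
      rw [e, Complex.sub_re, Complex.ofReal_re]
    rw [h2] at h1
    exact h1
  · intro s hs
    have h1 := Pool.Agent.Y771.NF.Lam_fe hk hf (conj s)
    have h2 : (2 * (((k : ℝ) / 2 : ℝ) : ℂ) - conj s) = (k : ℂ) - conj s := by
      push_cast
      ring
    rw [h2, h1, hconj, hs, map_zero, mul_zero]

end Pool.Agent.H514.LR
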