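import Pool.Agent.H514.LR.Gen
import Pool.Agent.Y671.GL.EC

set_option autoImplicit false

/-!
# Li coefficients on long runs: elliptic curves
-/

namespace Pool.Agent.H514.LR

open UpperHalfPlane hiding I
open MatrixGroups CongruenceSubgroup Filter Topology Complex
open Pool.Agent.W169.HF (IsForm IsCompleted coef)
open scoped ComplexConjugate

theorem gen_ec {ι : Type} [Fintype ι] (N : ι → ℕ) [∀ i, NeZero (N i)]
    (f : ∀ i, CuspForm (Gamma0 (N i) : Subgroup (GL (Fin 2) ℝ)) 2) (w : ι → ℝ)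
    (hf : ∀ i, IsForm (N i) (f i) (w i)) (Λ : ι → ℂ → ℂ) (hΛ : ∀ i, IsCompleted (f i) (Λ i))
    (c : ι → ℝ) (hc : LinearIndependent ℚ c) :
    List.TFAE [∀ i s, Λ i s = 0 → s.re = 1,
      ∀ ε : ℝ, 0 < ε → ∀ᶠ n : ℕ in atTop, |∑ i, c i * (lic 1 (Λ i) n).re| ≤ Real.exp (ε * n),
      ∀ ε : ℝ, 0 < ε → ∀ l : ℕ, ∃ᶠ N : ℕ in atTop, ∀ n : ℕ, N ≤ n → n < N + l →
        -Real.exp (ε * n) ≤ ∑ i, c i * (lic 1 (Λ i) n).re,
      ∀ ε : ℝ, 0 < ε → ∀ l : ℕ, ∃ᶠ N : ℕ in atTop, ∀ n : ℕ, N ≤ n → n < N + l →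
        ∑ i, c i * (lic 1 (Λ i) n).re ≤ Real.exp (ε * n)] ∧
    ∀ i n, (lic 1 (Λ i) n).im = 0 := by
  have hdat : ∀ i, (∀ s : ℂ, Λ i (2 - s) = (w i : ℂ) * Λ i s) ∧ (∀ s : ℂ, Λ i (conj s) = conj (Λ i s)) := by
    intro i
    obtain ⟨Λ', hΛ', hfe, hconj, -⟩ := Pool.Agent.W174.HF.nf1 (N i) (f i) (w i) (hf i)
    have hu : Λ' = Λ i := Pool.Agent.W169.HF.completed_unique hΛ' (hΛ i)
    subst hu
    exact ⟨hfe, hconj⟩
  have hstrip : ∀ i s, Λ i s = 0 → |s.re - (1 : ℝ)| ≤ 1 / 2 := by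
    intro i s hs
    obtain ⟨u, H, Z, hu, -, hst, -⟩ := Pool.Agent.Y671.GL.ec_data (hf i) (hΛ i)
    have h1 := hst (s - 1) (by
      simp only [add_sub_cancel]
      rw [hs, mul_zero])
    have h2 : (s - 1 : ℂ).re = s.re - 1 := by simp
    rw [h2] at h1
    exact h1
  have hsym : ∀ i s, Λ i s = 0 → Λ i (2 * ((1 : ℝ) : ℂ) - conj s) = 0 := by
    intro i s hs
    rw [Complex.ofReal_one, mul_one, (hdat i).1, (hdat i).2, hs, map_zero, mul_zero]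
  exact ⟨gen (fun _ => 1) Λ (fun i => (hΛ i).1) hstrip hsym (fun i => (hdat i).2) c hc,
    fun i n => lic_real (hdat i).2 n⟩

end Pool.Agent.H514.LR
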