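import Pool.Agent.H424.LC.Fam

set_option autoImplicit false

/-!
# Li coefficients on long runs: finite families of completed L-functions
-/

open Filter Topology Metric ComplexConjugate

namespace Pool.Agent.H514.LR

open Pool.Agent.H424.LC

/-- The Taylor coefficient of order `n - 1` at `z = 0` of the logarithmic derivative of
`z ↦ G (a + 3/2 * ((1 + z) / (1 - z)))`. -/
noncomputable def lic (a : ℝ) (G : ℂ → ℂ) (n : ℕ) : ℂ :=
  iteratedDeriv (n - 1) (logDeriv fun z : ℂ => G ((a : ℂ) + 3 / 2 * ((1 + z) / (1 - z)))) 0 / ((n - 1).factorial : ℂ)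

/-- centred -/
noncomputable def cen (a : ℝ) (G : ℂ → ℂ) (s : ℂ) : ℂ := G (s + ((a : ℂ) - 1 / 2))

lemma reg_cen (a : ℝ) (G : ℂ → ℂ) (s : ℂ) : reg (cen a G) 0 s = cen a G s := by
  unfold reg
  rw [pow_zero, one_mul]

lemma lic_eq (a : ℝ) (G : ℂ → ℂ) (n : ℕ) : liCoeff (cen a G) 0 (1 / 2) n = lic a G n := by
  unfold liCoeff li coef lic
  have e : (fun z : ℂ => reg (cen a G) 0 (mob (1 / 2) z)) =
      fun z : ℂ => G ((a : ℂ) + 3 / 2 * ((1 + z) / (1 - z))) := by
    funext z
    rw [reg_cen]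
    unfold cen mob
    congr 1
    push_cast
    ring
  rw [e]

lemma free_iff' {a : ℝ} {G : ℂ → ℂ} (hG : Differentiable ℂ G) (hsym : ∀ s, G s = 0 → G (2 * a - conj s) = 0) :
    ZeroPoleFree (cen a G) 0 (1 / 2) ↔ ∀ s, G s = 0 → s.re = a := by
  have hc : Differentiable ℂ (cen a G) := by
    unfold cen
    exact hG.comp (by fun_prop)
  have e : reg (cen a G) 0 = cen a G := funext (reg_cen a G)
  have h0 : ∀ s, meromorphicOrderAt (reg (cen a G) 0) s = 0 ↔ cen a G s ≠ 0 := by
    intro s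
    rw [e, (hc.analyticAt s).meromorphicOrderAt_eq]
    constructor
    · intro h h1
      have h2 : analyticOrderAt (cen a G) s ≠ 0 := by
        rw [ne_eq, (hc.analyticAt s).analyticOrderAt_eq_zero]
        simpa using h1
      apply h2
      cases h3 : analyticOrderAt (cen a G) s with
      | top => rw [h3] at h; simp at h
      | coe m =>
        rw [h3] at h
        simpa using h
    · intro h
      rw [(hc.analyticAt s).analyticOrderAt_eq_zero.2 h]
      simp
  constructor
  · intro h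
    have hr : ∀ s, G s = 0 → s.re ≤ a := by
      intro s hs
      by_contra hcon
      push Not at hcon
      have h1 := (h0 (s - ((a : ℂ) - 1 / 2))).1 (h (s - ((a : ℂ) - 1 / 2)) (by
        have : (s - ((a : ℂ) - 1 / 2)).re = s.re - a + 1 / 2 := by simp; ring
        rw [this]
        linarith))
      apply h1
      unfold cen
      rw [sub_add_cancel]
      exact hs
    intro s hs
    have h1 := hr s hs
    have h2 := hr _ (hsym s hs)
    have h3 : (2 * (a : ℂ) - conj s).re = 2 * a - s.re := by simp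
    rw [h3] at h2
    linarith
  · intro h s hs
    rw [h0]
    intro h1
    unfold cen at h1
    have h2 := h _ h1
    have h3 : (s + ((a : ℂ) - 1 / 2)).re = s.re + a - 1 / 2 := by simp; ring
    rw [h3] at h2
    norm_num at hs
    linarith

lemma lic_real {a : ℝ} {G : ℂ → ℂ} (hconj : ∀ s, G (conj s) = conj (G s)) (n : ℕ) : (lic a G n).im = 0 := by
  have h1 : li (fun z : ℂ => reg (cen a G) 0 (mob (1 / 2) z)) n =
      conj (li (fun z : ℂ => reg (cen a G) 0 (mob (1 / 2) z)) n) := by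
    refine li_conj (Filter.Eventually.of_forall fun z => ?_) n
    simp only [Function.comp_apply]
    rw [reg_cen, reg_cen]
    unfold cen mob
    rw [← hconj]
    congr 1
    simp only [map_add, map_sub, map_mul, map_div₀, map_one, Complex.conj_conj, Complex.conj_ofReal, map_ofNat]
  have h2 := congrArg Complex.im h1
  have h3 := lic_eq a G n
  unfold liCoeff at h3
  rw [h3, Complex.conj_im] at h2
  linarith

/-- **The criterion for a finite family.** -/
theorem gen {ι : Type} [Fintype ι] (a : ι → ℝ) (G : ι → ℂ → ℂ) (hG : ∀ i, Differentiable ℂ (G i))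
    (hstrip : ∀ i s, G i s = 0 → |s.re - a i| ≤ 1 / 2)
    (hsym : ∀ i s, G i s = 0 → G i (2 * a i - conj s) = 0)
    (hconj : ∀ i s, G i (conj s) = conj (G i s)) (c : ι → ℝ) (hc : LinearIndependent ℚ c) :
    List.TFAE [∀ i s, G i s = 0 → s.re = a i,
      ∀ ε : ℝ, 0 < ε → ∀ᶠ n : ℕ in atTop, |∑ i, c i * (lic (a i) (G i) n).re| ≤ Real.exp (ε * n),
      ∀ ε : ℝ, 0 < ε → ∀ l : ℕ, ∃ᶠ N : ℕ in atTop, ∀ n : ℕ, N ≤ n → n < N + l →
        -Real.exp (ε * n) ≤ ∑ i, c i * (lic (a i) (G i) n).re,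
      ∀ ε : ℝ, 0 < ε → ∀ l : ℕ, ∃ᶠ N : ℕ in atTop, ∀ n : ℕ, N ≤ n → n < N + l →
        ∑ i, c i * (lic (a i) (G i) n).re ≤ Real.exp (ε * n)] := by
  have hcd : ∀ i, Differentiable ℂ (cen (a i) (G i)) := by
    intro i
    unfold cen
    exact (hG i).comp (by fun_prop)
  have hL : ∀ i, MeromorphicOn (cen (a i) (G i)) Set.univ := fun i s _ => ((hcd i).analyticAt s).meromorphicAt
  have h2 : ∀ i, AnalyticOnNhd ℂ (cen (a i) (G i)) {s | 1 < s.re} := fun i s _ => (hcd i).analyticAt s
  have h2' : ∀ i, ∀ s : ℂ, 1 < s.re → cen (a i) (G i) s ≠ 0 := by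
    intro i s hs h0
    unfold cen at h0
    have h3 := hstrip i _ h0
    have h4 : (s + ((a i : ℂ) - 1 / 2)).re = s.re + a i - 1 / 2 := by simp; ring
    rw [h4] at h3
    have h5 := (abs_le.1 h3).2
    linarith
  have hc' : LinearIndependent ℚ (fun i => (c i : ℂ)) := by
    have h3 := hc.map' (Complex.ofRealAm.toLinearMap.restrictScalars ℚ) (by
      rw [LinearMap.ker_eq_bot]
      intro x y hxy
      exact Complex.ofReal_injective hxy)
    exact h3
  have hs : ∀ n, liSum (fun i => cen (a i) (G i)) (fun _ => 0) (fun i => (c i : ℂ)) (1 / 2) n =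
      ((∑ i, c i * (lic (a i) (G i) n).re : ℝ) : ℂ) := by
    intro n
    unfold liSum
    push_cast
    refine Finset.sum_congr rfl fun i _ => ?_
    rw [lic_eq]
    congr 1
    exact Complex.ext (by simp) (by simpa using lic_real (hconj i) n)
  have hreal : ∀ n, (liSum (fun i => cen (a i) (G i)) (fun _ => 0) (fun i => (c i : ℂ)) (1 / 2) n).im = 0 := by
    intro n
    rw [hs, Complex.ofReal_im]
  have hA := fam_norm hL h2 h2' (fun _ => 0) hc' (σ := 1 / 2) (by norm_num)
  have hB := fam_sign hL h2 h2' (fun _ => 0) hc' (σ := 1 / 2) (by norm_num) hreal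
  have hfree : (∀ i, ZeroPoleFree (cen (a i) (G i)) 0 (1 / 2)) ↔ ∀ i s, G i s = 0 → s.re = a i :=
    forall_congr' fun i => free_iff' (hG i) (hsym i)
  simp only [hs, Complex.ofReal_re, Complex.norm_real, Real.norm_eq_abs, hfree] at hA hB
  tfae_have 1 ↔ 2 := hA.out 0 1
  tfae_have 1 ↔ 3 := hB.out 0 1
  tfae_have 1 ↔ 4 := hB.out 0 2
  tfae_finish

end Pool.Agent.H514.LR
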